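import Pool.Agent.H99.MinNil2

set_option autoImplicit false

namespace Pool.Agent.Results.MP_3938c6_al.CommQuot

theorem result (A : Type) [NonUnitalRing A] [Module ℚ A] [IsScalarTower ℚ A A]
    [SMulCommClass ℚ A A] (hr : 1 < Module.rank ℚ A)
    (h : ∀ B : NonUnitalSubalgebra ℚ A, B ≠ ⊤ →
      ∃ n : ℕ, ∀ a ∈ B, ∀ l : List A, (∀ x ∈ l, x ∈ B) → l.length = n →
        l.foldl (fun x y => x * y) a = 0)
    (C : Type) [NonUnitalCommRing C] [Module ℚ C] [IsScalarTower ℚ C C] [SMulCommClass ℚ C C]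
    [Nontrivial C] (f : A →ₙₐ[ℚ] C) (hf : Function.Surjective f) :
    ∃ n : ℕ, ∀ a : A, ∀ l : List A, l.length = n → l.foldl (fun x y => x * y) a = 0 :=
  Pool.Agent.H99.MinNil.main2 hr h f hf

end Pool.Agent.Results.MP_3938c6_al.CommQuot
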